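import Pool.Agent.K3h46.AS.Stm

/-!
# The two derivations of the Artin-Schreier surface
-/

set_option autoImplicit false
set_option linter.style.haveILetI false
set_option linter.unusedSectionVars false
set_option linter.unusedSimpArgs false

namespace Pool.Agent.K3h85.AS

open Pool.Agent.K3h46.AS Finset

noncomputable section

/-! ### Iterated derivations -/

section Leib

variable {B : Type} [CommRing B]

/-- derivations of the ring `B` -/
structure IsDer (D : B → B) : Prop where
  add : ∀ a b, D (a + b) = D a + D b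
  leib : ∀ a b, D (a * b) = a * D b + b * D a

namespace IsDer

variable {D : B → B} (hD : IsDer D)

include hD

theorem zero : D 0 = 0 := by
  have h := hD.add 0 0
  rw [add_zero] at h
  simpa using h

theorem neg (a : B) : D (-a) = -D a := by
  have h := hD.add a (-a)
  rw [add_neg_cancel, hD.zero] at h
  exact (neg_eq_of_add_eq_zero_right h.symm).symm

theorem sum {ι : Type} (s : Finset ι) (f : ι → B) : D (∑ i ∈ s, f i) = ∑ i ∈ s, D (f i) := by
  classical
  induction s using Finset.induction_on with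
  | empty => simpa using hD.zero
  | insert b s hb ih => rw [sum_insert hb, sum_insert hb, hD.add, ih]

theorem nsmul (n : ℕ) (a : B) : D (n • a) = n • D a := by
  induction n with
  | zero => simpa using hD.zero
  | succ n ih => rw [succ_nsmul, succ_nsmul, hD.add, ih]

theorem one : D 1 = 0 := by
  have h := hD.leib 1 1
  simp only [one_mul] at h
  simpa using h

theorem natCast_mul (n : ℕ) (a : B) : D ((n : B) * a) = (n : B) * D a := by
  rw [← nsmul_eq_mul, hD.nsmul, nsmul_eq_mul]

theorem pow (n : ℕ) (a : B) : D (a ^ n) = (n : B) * (a ^ (n - 1) * D a) := by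
  induction n with
  | zero => simpa using hD.one
  | succ n ih =>
    rw [pow_succ, hD.leib, ih]
    rcases Nat.eq_zero_or_pos n with rfl | h
    · simp
    · obtain ⟨m, rfl⟩ : ∃ m, n = m + 1 := ⟨n - 1, by omega⟩
      simp only [Nat.add_sub_cancel]
      push_cast
      ring

theorem iter_add (n : ℕ) (a b : B) : D^[n] (a + b) = D^[n] a + D^[n] b := by
  induction n with
  | zero => rfl
  | succ n ih => rw [Function.iterate_succ_apply', Function.iterate_succ_apply',
      Function.iterate_succ_apply', ih, hD.add]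

theorem iter_zero (n : ℕ) : D^[n] 0 = 0 := by
  induction n with
  | zero => rfl
  | succ n ih => rw [Function.iterate_succ_apply', ih, hD.zero]

theorem iter_neg (n : ℕ) (a : B) : D^[n] (-a) = -D^[n] a := by
  induction n with
  | zero => rfl
  | succ n ih => rw [Function.iterate_succ_apply', Function.iterate_succ_apply', ih, hD.neg]

theorem leib_iter (n : ℕ) (a b : B) : D^[n] (a * b) =
    ∑ ij ∈ HasAntidiagonal.antidiagonal n, n.choose ij.1 • (D^[ij.1] a * D^[ij.2] b) := by
  induction n with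
  | zero => simp
  | succ n ih =>
    rw [sum_antidiagonal_choose_succ_nsmul (M := B) (fun i j => D^[i] a * D^[j] b) n,
      Function.iterate_succ_apply', ih, hD.sum, ← sum_add_distrib]
    refine sum_congr rfl fun ij hij => ?_
    rw [HasAntidiagonal.mem_antidiagonal] at hij
    have h1 : n.choose ij.2 = n.choose ij.1 := Nat.choose_symm_of_eq_add (by omega)
    rw [hD.nsmul, hD.leib, h1, ← smul_add, Function.iterate_succ_apply',
      Function.iterate_succ_apply']
    congr 1
    ring

theorem leib_p (p : ℕ) [Fact p.Prime] [CharP B p] (a b : B)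
    (ha : D^[p] a = 0) (hb : D^[p] b = 0) : D^[p] (a * b) = 0 := by
  rw [hD.leib_iter]
  refine sum_eq_zero fun ij hij => ?_
  rw [HasAntidiagonal.mem_antidiagonal] at hij
  rcases Nat.eq_zero_or_pos ij.1 with h1 | h1
  · have h2 : ij.2 = p := by omega
    rw [h2, hb, mul_zero, smul_zero]
  rcases Nat.eq_zero_or_pos ij.2 with h2 | h2
  · have h3 : ij.1 = p := by omega
    rw [h3, ha, zero_mul, smul_zero]
  · have h3 : p ∣ p.choose ij.1 :=
      (Fact.out : p.Prime).dvd_choose_self (by omega) (by omega)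
    rw [nsmul_eq_mul, (CharP.cast_eq_zero_iff B p _).mpr h3, zero_mul]

end IsDer

end Leib

/-! ### Elements `∑ a_i x ^ i` -/

section Ext

variable {B : Type} [CommRing B]

/-- the elements `∑_{i < n} a_i x ^ i`, all `a_i` in `N` -/
def ext (N : AddSubgroup B) (x : B) (n : ℕ) : AddSubgroup B where
  carrier := {z | ∃ a : ℕ → B, (∀ i, a i ∈ N) ∧ z = ∑ i ∈ range n, a i * x ^ i}
  zero_mem' := ⟨fun _ => 0, fun _ => N.zero_mem, by simp⟩
  add_mem' := by
    rintro _ _ ⟨a, ha, rfl⟩ ⟨b, hb, rfl⟩
    exact ⟨fun i => a i + b i, fun i => N.add_mem (ha i) (hb i), by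
      simp [add_mul, sum_add_distrib]⟩
  neg_mem' := by
    rintro _ ⟨a, ha, rfl⟩
    exact ⟨fun i => -a i, fun i => N.neg_mem (ha i), by simp⟩

theorem mem_ext {N : AddSubgroup B} {x : B} {n : ℕ} {z : B} : z ∈ ext N x n ↔
    ∃ a : ℕ → B, (∀ i, a i ∈ N) ∧ z = ∑ i ∈ range n, a i * x ^ i := Iff.rfl

theorem mul_mem_ext {N : AddSubgroup B} {x c : B} {n : ℕ} (hc : ∀ z ∈ N, c * z ∈ N) :
    ∀ z ∈ ext N x n, c * z ∈ ext N x n := by
  rintro _ ⟨a, ha, rfl⟩
  exact ⟨fun i => c * a i, fun i => hc _ (ha i), by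
    rw [mul_sum]
    exact sum_congr rfl fun i _ => by ring⟩

theorem x_mem_ext {N : AddSubgroup B} {x : B} {n : ℕ} (hn : 0 < n)
    (hc : ∀ z ∈ N, x ^ n * z ∈ N) : ∀ z ∈ ext N x n, x * z ∈ ext N x n := by
  rintro _ ⟨a, ha, rfl⟩
  obtain ⟨m, rfl⟩ : ∃ m, n = m + 1 := ⟨n - 1, by omega⟩
  refine ⟨fun i => if i = 0 then x ^ (m + 1) * a m else a (i - 1), fun i => ?_, ?_⟩
  · dsimp only
    split_ifs
    · exact hc _ (ha m)
    · exact ha _
  · rw [mul_sum, sum_range_succ, sum_range_succ']
    simp only [if_true, pow_zero, mul_one, Nat.add_eq_zero_iff, one_ne_zero, and_false, if_false,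
      Nat.add_sub_cancel]
    congr 1
    · exact sum_congr rfl fun i _ => by ring
    · ring

theorem sub_ext {N : AddSubgroup B} {x : B} {n : ℕ} (hn : 0 < n) : ∀ z ∈ N, z ∈ ext N x n := by
  intro z hz
  refine ⟨fun i => if i = 0 then z else 0, fun i => ?_, ?_⟩
  · dsimp only
    split_ifs
    · exact hz
    · exact N.zero_mem
  · obtain ⟨m, rfl⟩ : ∃ m, n = m + 1 := ⟨n - 1, by omega⟩
    rw [sum_range_succ']
    simp

theorem iter_x {D : B → B} (hD : IsDer D) {x a : B} (hx : D x = 1) (ha : D a = 0) (i : ℕ) :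
    ∀ m : ℕ, D^[m] (a * x ^ i) = (Nat.descFactorial i m : B) * (a * x ^ (i - m)) := by
  intro m
  induction m with
  | zero => simp
  | succ m ih =>
    rw [Function.iterate_succ_apply', ih, hD.natCast_mul, hD.leib, ha, hD.pow, hx,
      Nat.descFactorial_succ, Nat.sub_sub]
    push_cast
    ring

/-- elements of the form `∑_{i < m} a_i x ^ i` in the kernel of a derivation -/
theorem ker_ext (p : ℕ) {D : B → B} (hD : IsDer D) {x : B} (hx : D x = 1)
    (N : AddSubgroup B) (hN : ∀ a ∈ N, D a = 0)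
    (hu : ∀ m : ℕ, m < p → IsUnit ((Nat.factorial m : ℕ) : B)) :
    ∀ m : ℕ, m ≤ p → ∀ z ∈ ext N x m, D z = 0 → z ∈ N := by
  intro m
  induction m with
  | zero =>
    rintro - _ ⟨a, -, rfl⟩ -
    simp
  | succ m ih =>
    rintro hm _ ⟨a, ha, rfl⟩ hz
    rcases Nat.eq_zero_or_pos m with rfl | h0
    · simpa using ha 0
    have h1 : D^[m] (∑ i ∈ range (m + 1), a i * x ^ i) = 0 := by
      obtain ⟨k, rfl⟩ : ∃ k, m = k + 1 := ⟨m - 1, by omega⟩
      rw [Function.iterate_succ_apply, hz, hD.iter_zero]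
    have h2 : ∀ (s : Finset ℕ) (f : ℕ → B), D^[m] (∑ i ∈ s, f i) = ∑ i ∈ s, D^[m] (f i) := by
      intro s f
      induction s using Finset.induction_on with
      | empty => simpa using hD.iter_zero m
      | insert b s hb ih2 => rw [sum_insert hb, sum_insert hb, hD.iter_add, ih2]
    rw [h2, sum_range_succ, sum_eq_zero, zero_add, iter_x hD hx (hN _ (ha m)), Nat.sub_self,
      pow_zero, mul_one, Nat.descFactorial_self] at h1
    · have h3 : a m = 0 := ((hu m (by omega)).mul_right_eq_zero).mp h1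
      have h4 : ∑ i ∈ range (m + 1), a i * x ^ i = ∑ i ∈ range m, a i * x ^ i := by
        rw [sum_range_succ, h3, zero_mul, add_zero]
      rw [h4] at hz ⊢
      exact ih (by omega) _ ⟨a, ha, rfl⟩ hz
    · intro i hi
      rw [mem_range] at hi
      rw [iter_x hD hx (hN _ (ha i)), Nat.descFactorial_eq_zero_iff_lt.mpr hi, Nat.cast_zero,
        zero_mul]

end Ext

/-! ### The surface -/

section Surf

variable {p : ℕ} [Fact p.Prime] {F : Type} [Field F] [CharP F p] {f : MvPolynomial (Fin 2) F}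

theorem eqn_ne (p : ℕ) [Fact p.Prime] (f : MvPolynomial (Fin 2) F) : (eqn p f).degree ≠ 0 := by
  have h2 : 2 ≤ p := (Fact.out : p.Prime).two_le
  have h1 : (eqn p f).coeff p = 1 := by
    unfold eqn
    rw [Polynomial.coeff_sub, Polynomial.coeff_sub, Polynomial.coeff_X_pow_self,
      Polynomial.coeff_X, if_neg (by omega), Polynomial.coeff_C, if_neg (by omega)]
    simp
  intro h
  rw [Polynomial.coeff_eq_zero_of_degree_lt (by
    rw [h]
    exact_mod_cast (by omega : 0 < p))] at h1
  exact zero_ne_one h1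

instance : Nontrivial (Cov p f) := AdjoinRoot.nontrivial _ (eqn_ne p f)

instance : CharP (Cov p f) p :=
  charP_of_injective_ringHom
    ((AdjoinRoot.of (eqn p f)).comp (MvPolynomial.C : F →+* MvPolynomial (Fin 2) F)).injective p

theorem cov_induction {P : Cov p f → Prop} (h1 : ∀ a, P (AdjoinRoot.of (eqn p f) a))
    (h2 : P (AdjoinRoot.root (eqn p f))) (h3 : ∀ a b, P a → P b → P (a + b))
    (h4 : ∀ a b, P a → P b → P (a * b)) (z : Cov p f) : P z := by
  induction z using AdjoinRoot.induction_on with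
  | ih g =>
    induction g using Polynomial.induction_on with
    | C a => exact h1 a
    | add a b ha hb =>
      rw [map_add]
      exact h3 _ _ ha hb
    | monomial n a ih =>
      rw [pow_succ, ← mul_assoc, map_mul]
      exact h4 _ _ ih (by simpa using h2)

theorem mv_induction {P : MvPolynomial (Fin 2) F → Prop} (h1 : ∀ a, P (MvPolynomial.C a))
    (h2 : ∀ i, P (MvPolynomial.X i)) (h3 : ∀ a b, P a → P b → P (a + b))
    (h4 : ∀ a b, P a → P b → P (a * b)) (z : MvPolynomial (Fin 2) F) : P z := by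
  induction z using MvPolynomial.induction_on with
  | C a => exact h1 a
  | add a b ha hb => exact h3 _ _ ha hb
  | mul_X a i ih => exact h4 _ _ ih (h2 i)

/-- `a ↦ a + ε ∂a/∂x_i` -/
def dual (p : ℕ) (f : MvPolynomial (Fin 2) F) (i : Fin 2) :
    MvPolynomial (Fin 2) F →+* TrivSqZeroExt (Cov p f) (Cov p f) where
  toFun a := TrivSqZeroExt.inl (AdjoinRoot.of (eqn p f) a) +
    TrivSqZeroExt.inr (AdjoinRoot.of (eqn p f) (MvPolynomial.pderiv i a))
  map_one' := by simp
  map_zero' := by simp
  map_add' a b := by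
    ext <;> simp
  map_mul' a b := by
    ext
    · simp
    · simp [Derivation.leibniz, mul_comm]

/-- the derivation `∂/∂x_i` -/
theorem exists_der (i : Fin 2) : ∃ δ : Derivation ℤ (Cov p f) (Cov p f),
    (∀ a, δ (AdjoinRoot.of (eqn p f) a) = AdjoinRoot.of (eqn p f) (MvPolynomial.pderiv i a)) ∧
    δ (AdjoinRoot.root (eqn p f)) = -AdjoinRoot.of (eqn p f) (MvPolynomial.pderiv i f) := by
  set w : TrivSqZeroExt (Cov p f) (Cov p f) := TrivSqZeroExt.inl (AdjoinRoot.root (eqn p f)) +
    TrivSqZeroExt.inr (-AdjoinRoot.of (eqn p f) (MvPolynomial.pderiv i f)) with hw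
  have h1 : w ^ p - w = dual p f i f := by
    ext
    · have h2 := eval_root p f
      simp only [hw, dual, TrivSqZeroExt.fst_sub, TrivSqZeroExt.fst_pow, TrivSqZeroExt.fst_add,
        TrivSqZeroExt.fst_inl, TrivSqZeroExt.fst_inr, add_zero, RingHom.coe_mk, MonoidHom.coe_mk,
        OneHom.coe_mk]
      exact h2
    · have h3 : ((p : ℕ) : Cov p f) = 0 := CharP.cast_eq_zero _ _
      simp [hw, dual, TrivSqZeroExt.snd_pow, h3]
  let J : Cov p f →+* TrivSqZeroExt (Cov p f) (Cov p f) :=
    AdjoinRoot.lift (dual p f i) w (eval_eqn p f (dual p f i) w h1)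
  have hJ1 : ∀ a, J (AdjoinRoot.of (eqn p f) a) = dual p f i a := fun a =>
    AdjoinRoot.lift_of _
  have hJ2 : J (AdjoinRoot.root (eqn p f)) = w := AdjoinRoot.lift_root _
  have hfst : ∀ z, (J z).fst = z := by
    intro z
    induction z using cov_induction with
    | h1 a => rw [hJ1]; simp [dual]
    | h2 => rw [hJ2]; simp [hw]
    | h3 a b ha hb => rw [map_add, TrivSqZeroExt.fst_add, ha, hb]
    | h4 a b ha hb => rw [map_mul, TrivSqZeroExt.fst_mul, ha, hb]
  refine ⟨Derivation.mk' (AddMonoidHom.toIntLinearMap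
    { toFun := fun z => (J z).snd
      map_zero' := by simp
      map_add' := fun a b => by simp }) ?_, ?_, ?_⟩
  · intro a b
    change (J (a * b)).snd = a • (J b).snd + b • (J a).snd
    rw [map_mul, TrivSqZeroExt.snd_mul, hfst, hfst]
    simp [mul_comm]
  · intro a
    change (J _).snd = _
    rw [hJ1]
    simp [dual]
  · change (J _).snd = _
    rw [hJ2]
    simp [hw]

theorem isDer (δ : Derivation ℤ (Cov p f) (Cov p f)) : IsDer (δ : Cov p f → Cov p f) :=
  ⟨fun a b => map_add δ a b, fun a b => Derivation.leibniz δ a b⟩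

/-- derivations are determined by their values on the polynomials and on the root -/
theorem der_zero {D : Cov p f → Cov p f} (hD : IsDer D)
    (h1 : ∀ a, D (AdjoinRoot.of (eqn p f) a) = 0) (h2 : D (AdjoinRoot.root (eqn p f)) = 0)
    (z : Cov p f) : D z = 0 := by
  induction z using cov_induction with
  | h1 a => exact h1 a
  | h2 => exact h2
  | h3 a b ha hb => rw [hD.add, ha, hb, add_zero]
  | h4 a b ha hb => rw [hD.leib, ha, hb, mul_zero, mul_zero, add_zero]

theorem pderiv_comm (i j : Fin 2) (a : MvPolynomial (Fin 2) F) :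
    MvPolynomial.pderiv i (MvPolynomial.pderiv j a) =
      MvPolynomial.pderiv j (MvPolynomial.pderiv i a) := by
  have h : ⁅(MvPolynomial.pderiv i : Derivation F (MvPolynomial (Fin 2) F)
      (MvPolynomial (Fin 2) F)), (MvPolynomial.pderiv j : Derivation F (MvPolynomial (Fin 2) F)
      (MvPolynomial (Fin 2) F))⁆ = 0 := by
    apply MvPolynomial.derivation_ext
    intro k
    rw [Derivation.commutator_apply, MvPolynomial.pderiv_X, MvPolynomial.pderiv_X]
    fin_cases i <;> fin_cases j <;> fin_cases k <;> simp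
  have h1 := Derivation.congr_fun h a
  rw [Derivation.commutator_apply, Derivation.zero_apply, sub_eq_zero] at h1
  exact h1

/-- `δ ^ p = 0` -/
theorem iter_p (i : Fin 2) {δ : Cov p f → Cov p f} (hδ : IsDer δ)
    (h1 : ∀ a, δ (AdjoinRoot.of (eqn p f) a) = AdjoinRoot.of (eqn p f) (MvPolynomial.pderiv i a))
    (h2 : δ (AdjoinRoot.root (eqn p f)) = -AdjoinRoot.of (eqn p f) (MvPolynomial.pderiv i f))
    (z : Cov p f) : δ^[p] z = 0 := by
  have hp2 : 2 ≤ p := (Fact.out : p.Prime).two_le
  have hA : ∀ a : MvPolynomial (Fin 2) F, δ^[p] (AdjoinRoot.of (eqn p f) a) = 0 := by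
    intro a
    obtain ⟨m, rfl⟩ : ∃ m, p = m + 2 := ⟨p - 2, by omega⟩
    induction a using mv_induction with
    | h1 a =>
      rw [Function.iterate_succ_apply, h1, MvPolynomial.pderiv_C, map_zero, hδ.iter_zero]
    | h2 j =>
      rw [Function.iterate_succ_apply, Function.iterate_succ_apply, h1, h1,
        MvPolynomial.pderiv_X]
      have h3 : MvPolynomial.pderiv i
          ((Pi.single i 1 : Fin 2 → MvPolynomial (Fin 2) F) j) = 0 := by
        by_cases h : j = i
        · subst h
          simp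
        · rw [Pi.single_eq_of_ne h, map_zero]
      rw [h3, map_zero, hδ.iter_zero]
    | h3 a b ha hb => rw [map_add, hδ.iter_add, ha, hb, add_zero]
    | h4 a b ha hb =>
      rw [map_mul]
      exact hδ.leib_p (m + 2) _ _ ha hb
  induction z using cov_induction with
  | h1 a => exact hA a
  | h2 =>
    obtain ⟨m, rfl⟩ : ∃ m, p = m + 1 := ⟨p - 1, by omega⟩
    have h3 := hA f
    rw [Function.iterate_succ_apply, h1] at h3
    rw [Function.iterate_succ_apply, h2, hδ.iter_neg, h3, neg_zero]
  | h3 a b ha hb => rw [hδ.iter_add, ha, hb, add_zero]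
  | h4 a b ha hb => exact hδ.leib_p p _ _ ha hb

theorem t_DB : S_DB := by
  intro p _ F _ _ _ f
  obtain ⟨δ₁, h11, h12⟩ := exists_der (p := p) (f := f) 0
  obtain ⟨δ₂, h21, h22⟩ := exists_der (p := p) (f := f) 1
  have hp0 : 0 < p := (Fact.out : p.Prime).pos
  have e1 : δ₁ (xB p f) = 1 := by
    unfold xB
    rw [h11, MvPolynomial.pderiv_X]
    simp
  have e2 : δ₁ (tB p f) = 0 := by
    unfold tB
    rw [h11, MvPolynomial.pderiv_X]
    simp
  have e3 : δ₂ (xB p f) = 0 := by
    unfold xB
    rw [h21, MvPolynomial.pderiv_X]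
    simp
  have e4 : δ₂ (tB p f) = 1 := by
    unfold tB
    rw [h21, MvPolynomial.pderiv_X]
    simp
  have hδ₁ := isDer δ₁
  have hδ₂ := isDer δ₂
  refine ⟨δ₁, δ₂, e1, e2, e3, e4, ?_, iter_p 0 hδ₁ h11 h12, iter_p 1 hδ₂ h21 h22, ?_⟩
  · intro z
    have hc : IsDer fun z => δ₁ (δ₂ z) - δ₂ (δ₁ z) :=
      ⟨fun a b => by
        rw [hδ₁.add, hδ₂.add, hδ₁.add, hδ₂.add]
        ring, fun a b => by
        rw [hδ₁.leib, hδ₂.leib, hδ₁.add, hδ₂.add, hδ₁.leib, hδ₁.leib, hδ₂.leib, hδ₂.leib]
        ring⟩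
    have h := der_zero hc (fun a => by
      rw [h21, h11, h11, h21, pderiv_comm, sub_self]) (by
      rw [h12, h22, hδ₁.neg, hδ₂.neg, h21, h11, pderiv_comm, sub_self]) z
    exact sub_eq_zero.mp h
  · -- the subring of `p`-th powers
    let S : AddSubgroup (Cov p f) := (frobenius (Cov p f) p).range.toAddSubgroup
    have hS : ∀ z, z ∈ S ↔ ∃ y, y ^ p = z := fun z => Iff.rfl
    have hSmul : ∀ y : Cov p f, ∀ z ∈ S, y ^ p * z ∈ S := by
      rintro y _ ⟨y', rfl⟩
      exact ⟨y * y', map_mul _ _ _⟩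
    let N := ext S (tB p f) p
    let M := ext N (xB p f) p
    have hNp : ∀ y : Cov p f, ∀ z ∈ N, y ^ p * z ∈ N := fun y => mul_mem_ext (hSmul y)
    have hMp : ∀ y : Cov p f, ∀ z ∈ M, y ^ p * z ∈ M := fun y => mul_mem_ext (hNp y)
    have hMx : ∀ z ∈ M, xB p f * z ∈ M := x_mem_ext hp0 (hNp _)
    have hMt : ∀ z ∈ M, tB p f * z ∈ M := mul_mem_ext (x_mem_ext hp0 (hSmul _))
    have hMA : ∀ a : MvPolynomial (Fin 2) F, ∀ z ∈ M, AdjoinRoot.of (eqn p f) a * z ∈ M := by
      intro a
      induction a using mv_induction with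
      | h1 a =>
        obtain ⟨b, rfl⟩ := (frobeniusEquiv F p).surjective a
        intro z hz
        have : AdjoinRoot.of (eqn p f) (MvPolynomial.C (frobeniusEquiv F p b)) =
            AdjoinRoot.of (eqn p f) (MvPolynomial.C b) ^ p := by
          rw [frobeniusEquiv_apply, frobenius_def, map_pow, map_pow]
        rw [this]
        exact hMp _ z hz
      | h2 i =>
        fin_cases i
        · exact hMx
        · exact hMt
      | h3 a b ha hb =>
        intro z hz
        rw [map_add, add_mul]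
        exact M.add_mem (ha z hz) (hb z hz)
      | h4 a b ha hb =>
        intro z hz
        rw [map_mul, mul_assoc]
        exact ha _ (hb z hz)
    have hMB : ∀ b : Cov p f, ∀ z ∈ M, b * z ∈ M := by
      intro b
      induction b using cov_induction with
      | h1 a => exact hMA a
      | h2 =>
        intro z hz
        have h := eval_root p f
        have h' : AdjoinRoot.root (eqn p f) * z = AdjoinRoot.root (eqn p f) ^ p * z -
            AdjoinRoot.of (eqn p f) f * z := by
          rw [← h]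
          ring
        rw [h']
        exact M.sub_mem (hMp _ z hz) (hMA f z hz)
      | h3 a b ha hb =>
        intro z hz
        rw [add_mul]
        exact M.add_mem (ha z hz) (hb z hz)
      | h4 a b ha hb =>
        intro z hz
        rw [mul_assoc]
        exact ha _ (hb z hz)
    have h1M : (1 : Cov p f) ∈ M := sub_ext hp0 _ (sub_ext hp0 _ ⟨1, map_one _⟩)
    have hall : ∀ b : Cov p f, b ∈ M := fun b => by
      have := hMB b 1 h1M
      rwa [mul_one] at this
    have hpow : ∀ {D : Cov p f → Cov p f}, IsDer D → ∀ z ∈ S, D z = 0 := by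
      rintro D hD _ ⟨y, rfl⟩
      rw [frobenius_def, hD.pow, CharP.cast_eq_zero, zero_mul]
    have hu : ∀ m : ℕ, m < p → IsUnit ((Nat.factorial m : ℕ) : Cov p f) := by
      intro m hm
      have h1 : ((Nat.factorial m : ℕ) : F) ≠ 0 := by
        intro h
        rw [CharP.cast_eq_zero_iff F p, (Fact.out : p.Prime).dvd_factorial] at h
        omega
      have h2 := (isUnit_iff_ne_zero.mpr h1).map
        ((AdjoinRoot.of (eqn p f)).comp (MvPolynomial.C : F →+* MvPolynomial (Fin 2) F))
      rwa [map_natCast] at h2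
    intro z hz1 hz2
    have hN0 : ∀ a ∈ N, δ₁ a = 0 := by
      rintro _ ⟨a, ha, rfl⟩
      rw [hδ₁.sum]
      refine sum_eq_zero fun i _ => ?_
      rw [hδ₁.leib, hδ₁.pow, e2, hpow hδ₁ _ (ha i)]
      simp
    have hzN : z ∈ N := ker_ext p hδ₁ e1 N hN0 hu p le_rfl z (hall z) hz1
    have hzS : z ∈ S := ker_ext p hδ₂ e4 S (hpow hδ₂) hu p le_rfl z hzN hz2
    obtain ⟨y, hy⟩ := (hS z).mp hzS
    exact ⟨y, hy.symm⟩

end Surf

end

end Pool.Agent.K3h85.AS
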