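import Pool.Agent.K3h46.AS.Stm

/-!
# An equation for polynomials modulo an irreducible polynomial
-/

set_option autoImplicit false
set_option linter.style.haveILetI false

namespace Pool.Agent.K3h85.AS

open Polynomial Pool.Agent.K3h46.AS

/-- the leading term of the iterated derivative of `φ ^ i g` modulo a power of `φ` -/
theorem iter_der {R : Type} [CommRing R] (φ g : R[X]) (i : ℕ) : ∀ j : ℕ, j ≤ i →
    ∃ h : R[X], derivative^[j] (φ ^ i * g) =
      (Nat.descFactorial i j : R[X]) * (φ ^ (i - j) * (derivative φ ^ j * g)) +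
        φ ^ (i - j + 1) * h := by
  intro j
  induction j with
  | zero =>
    intro _
    exact ⟨0, by simp⟩
  | succ j ih =>
    intro hj
    obtain ⟨h, hh⟩ := ih (by omega)
    obtain ⟨m, rfl⟩ : ∃ m, i = m + (j + 1) := ⟨i - (j + 1), by omega⟩
    have e1 : m + (j + 1) - j = m + 1 := by omega
    have e2 : m + (j + 1) - (j + 1) = m := by omega
    rw [e1] at hh
    rw [e2, Function.iterate_succ_apply', hh]
    refine ⟨(Nat.descFactorial (m + (j + 1)) j : R[X]) * derivative (derivative φ ^ j * g) +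
      ((m + 2 : ℕ) : R[X]) * (derivative φ * h) + φ * derivative h, ?_⟩
    have e3 : (Nat.descFactorial (m + (j + 1)) (j + 1) : R[X]) =
        ((m + 1 : ℕ) : R[X]) * (Nat.descFactorial (m + (j + 1)) j : R[X]) := by
      rw [Nat.descFactorial_succ, e1, Nat.cast_mul]
    rw [e3]
    simp only [derivative_add, derivative_mul, derivative_natCast, zero_mul, zero_add,
      derivative_pow, Nat.cast_add, Nat.cast_one, Nat.add_sub_cancel, Polynomial.C_add,
      Polynomial.C_1, map_natCast, Nat.cast_ofNat]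
    ring


theorem t_LOG : S_LOG := by
  intro p _ F _ _ φ g hirr hp hdeg heq
  by_contra hg
  have hp1 : 1 ≤ p := (Fact.out : p.Prime).one_lt.le
  haveI : Fact (Irreducible φ) := ⟨hirr⟩
  have hd1 : 0 < φ.natDegree := hirr.natDegree_pos
  have hφ0 : φ ≠ 0 := hirr.ne_zero
  have hdF : (φ.natDegree : F) ≠ 0 := by
    intro h
    exact hp ((CharP.cast_eq_zero_iff F p _).mp h)
  -- the derivative
  have hc : (derivative φ).coeff (φ.natDegree - 1) ≠ 0 := by
    rw [coeff_derivative, Nat.sub_add_cancel hd1]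
    have h1 : ((φ.natDegree - 1 : ℕ) : F) + 1 = (φ.natDegree : F) := by
      rw [← Nat.cast_add_one, Nat.sub_add_cancel hd1]
    rw [h1]
    exact mul_ne_zero (leadingCoeff_ne_zero.mpr hφ0) hdF
  have hder0 : derivative φ ≠ 0 := by
    intro h
    rw [h, coeff_zero] at hc
    exact hc rfl
  have hderlt : (derivative φ).degree < φ.degree := degree_derivative_lt hφ0
  have hgl : g.degree < φ.degree := by
    refine hdeg.trans_le ?_
    rw [degree_eq_natDegree hφ0]
    exact_mod_cast Nat.sub_le _ _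
  -- Wilson
  have hW : ((Nat.factorial (p - 1) : ℕ) : F[X]) = -1 := by
    have h1 := congrArg (ZMod.castHom (dvd_refl p) F[X]) (ZMod.wilsons_lemma p)
    rwa [map_natCast, map_neg, map_one] at h1
  obtain ⟨h, hh⟩ := iter_der φ g (p - 1) (p - 1) le_rfl
  rw [Nat.descFactorial_self, hW, Nat.sub_self, pow_zero, one_mul, zero_add, pow_one] at hh
  rw [hh] at heq
  have hK : (AdjoinRoot.mk φ g) ^ p =
      (AdjoinRoot.mk φ (derivative φ)) ^ (p - 1) * AdjoinRoot.mk φ g := by
    have h1 := congrArg (AdjoinRoot.mk φ) heq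
    simp only [map_add, map_mul, map_pow, map_neg, map_one, AdjoinRoot.mk_self, zero_mul,
      add_zero, map_zero] at h1
    linear_combination h1
  have hG : AdjoinRoot.mk φ g ≠ 0 := by
    intro h1
    rw [AdjoinRoot.mk_eq_zero] at h1
    exact hg (eq_zero_of_dvd_of_degree_lt h1 hgl)
  have hD : AdjoinRoot.mk φ (derivative φ) ≠ 0 := by
    intro h1
    rw [AdjoinRoot.mk_eq_zero] at h1
    exact hder0 (eq_zero_of_dvd_of_degree_lt h1 hderlt)
  haveI : CharP (AdjoinRoot φ) p := charP_of_injective_ringHom (AdjoinRoot.of φ).injective p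
  have hz : (AdjoinRoot.mk φ g / AdjoinRoot.mk φ (derivative φ)) ^ p =
      AdjoinRoot.mk φ g / AdjoinRoot.mk φ (derivative φ) := by
    rw [div_pow, hK, div_eq_div_iff (pow_ne_zero _ hD) hD]
    have h1 : AdjoinRoot.mk φ (derivative φ) ^ p =
        AdjoinRoot.mk φ (derivative φ) ^ (p - 1) * AdjoinRoot.mk φ (derivative φ) := by
      rw [← pow_succ, Nat.sub_add_cancel hp1]
    rw [h1]
    ring
  rw [← Subfield.mem_bot_iff_pow_eq_self, mem_bot_iff_intCast p] at hz
  obtain ⟨n, hn⟩ := hz
  have h2 : AdjoinRoot.mk φ (g - (n : F[X]) * derivative φ) = 0 := by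
    rw [map_sub, map_mul, map_intCast, hn, div_mul_cancel₀ _ hD, sub_self]
  rw [AdjoinRoot.mk_eq_zero] at h2
  have h3 : ((n : F[X]) * derivative φ).degree < φ.degree := by
    rw [← C_eq_intCast, ← smul_eq_C_mul]
    exact (degree_smul_le _ _).trans_lt hderlt
  have h4 : g - (n : F[X]) * derivative φ = 0 :=
    eq_zero_of_dvd_of_degree_lt h2 ((degree_sub_le _ _).trans_lt (max_lt hgl h3))
  have h5 : g = C (n : F) * derivative φ := by
    rw [C_eq_intCast]
    exact sub_eq_zero.mp h4
  have h6 : (n : F) ≠ 0 := by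
    intro h
    rw [h, C_0, zero_mul] at h5
    exact hg h5
  have h7 : g.coeff (φ.natDegree - 1) = 0 := coeff_eq_zero_of_degree_lt hdeg
  rw [h5, coeff_C_mul] at h7
  exact mul_ne_zero h6 hc h7

end Pool.Agent.K3h85.AS
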